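import Pool.Agent.L0h6.KN.REP
import Pool.Agent.L0h6.KN.MNO
import Pool.Agent.L0h91.KN.PAT
import Pool.Agent.L0h7.KN.MAIN

/-! # Negative `K`-groups of torsion-free groups: reduction to one group -/

set_option autoImplicit false

open CategoryTheory

noncomputable section

namespace Pool.Agent.L0h7.SG

open Pool.Agent.Y75.NK Pool.Agent.L0h7.KN

/-- `K_{-m}(R[G]) = 0` -/
def Van (R : Type) [Ring R] (m : ℕ) (G : GrpCat.{0}) : Prop :=
  ∀ x : (Kneg m).obj ((gr R).obj G), x = 0

theorem van_retract (R : Type) [Ring R] (m : ℕ) {H U : GrpCat.{0}} (i : H ⟶ U) (r : U ⟶ H)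
    (h : i ≫ r = 𝟙 H) (hU : Van R m U) : Van R m H := by
  intro x
  have h1 : ((gr R ⋙ Kneg m).map (i ≫ r)).hom x = x := by
    rw [h, (gr R ⋙ Kneg m).map_id]
    rfl
  rw [(gr R ⋙ Kneg m).map_comp] at h1
  have h2 : ((gr R ⋙ Kneg m).map i).hom x = 0 := hU _
  have h3 : ((gr R ⋙ Kneg m).map r).hom (((gr R ⋙ Kneg m).map i).hom x) = x := h1
  rw [← h3, h2, map_zero]

theorem van_shift (R : Type) [Ring R] (m : ℕ) (G : GrpCat.{0}) (h : Van R m (tz.obj G)) :
    Van R (m + 1) G := by
  intro x
  obtain ⟨y, rfl⟩ := QuotientAddGroup.mk'_surjective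
    (polySub (Kneg m) ((gr R).obj G)) x
  have h1 : (cur R).hom.app G ≫ (cur R).inv.app G = 𝟙 _ := Iso.hom_inv_id_app _ _
  have h2 : (Kneg m).map ((cur R).hom.app G) ≫ (Kneg m).map ((cur R).inv.app G) = 𝟙 _ := by
    rw [← (Kneg m).map_comp, h1, (Kneg m).map_id]
  have h3 : ((Kneg m).map ((cur R).inv.app G)).hom
      (((Kneg m).map ((cur R).hom.app G)).hom y) = y := congrArg (fun z => z.hom y) h2
  have h4 : ((Kneg m).map ((cur R).hom.app G)).hom y = 0 := h _
  have h5 : y = 0 := by
    rw [← h3, h4, map_zero]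
  rw [h5]
  exact map_zero (QuotientAddGroup.mk' (polySub (Kneg m) ((gr R).obj G)))

theorem tfr_tz {G : GrpCat.{0}} (hG : TFr G) : TFr (tz.obj G) := by
  rintro ⟨a, g⟩ k hk h
  have h1 : a ^ k = 1 := congrArg Prod.fst h
  have h2 : g ^ k = 1 := congrArg Prod.snd h
  have h3 : a = 1 := by
    have h4 : k • (Multiplicative.toAdd a) = 0 := by
      rw [← toAdd_pow, h1]
      rfl
    have h5 : Multiplicative.toAdd a = 0 := by
      rcases smul_eq_zero.1 h4 with h6 | h6
      · omega
      · exact h6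
    exact Multiplicative.toAdd.injective h5
  exact Prod.ext h3 (hG g k hk h2)

theorem van_all (R : Type) [Ring R] (h : ∀ G : GrpCat.{0}, TFr G → Van R 1 G) (m : ℕ) :
    ∀ G : GrpCat.{0}, TFr G → Van R (m + 1) G := by
  induction m with
  | zero => exact h
  | succ m ih => exact fun G hG => van_shift R (m + 1) G (ih _ (tfr_tz hG))

/-- the direct sum of a family of groups -/
def sumG {I : Type} (H : I → GrpCat.{0}) : Subgroup (∀ i, H i) :=
  open Classical in Subgroup.closure (⋃ i, Set.range (MonoidHom.mulSingle (fun i => H i) i))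

theorem tfr_sumG {I : Type} (H : I → GrpCat.{0}) (hH : ∀ i, TFr (H i)) :
    TFr (GrpCat.of (sumG H)) := by
  rintro ⟨g, hg⟩ k hk h
  apply Subtype.ext
  funext i
  refine hH i (g i) k hk ?_
  have h1 := congrArg Subtype.val h
  exact congrFun h1 i

theorem van_sumG (R : Type) [Ring R] (m : ℕ) {I : Type} (H : I → GrpCat.{0})
    (h : Van R m (GrpCat.of (sumG H))) (i : I) : Van R m (H i) := by
  classical
  have h1 : ∀ x : H i, MonoidHom.mulSingle (fun i => H i) i x ∈ sumG H := by
    intro x
    apply Subgroup.subset_closure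
    refine Set.mem_iUnion.2 ⟨i, ?_⟩
    refine ⟨x, ?_⟩
    congr!
  refine van_retract R m (U := GrpCat.of (sumG H))
    (GrpCat.ofHom ((MonoidHom.mulSingle (fun i => H i) i).codRestrict (sumG H) h1))
    (GrpCat.ofHom ((Pi.evalMonoidHom (fun i => H i) i).comp (sumG H).subtype)) ?_ h
  apply GrpCat.hom_ext
  apply MonoidHom.ext
  intro x
  change (MonoidHom.mulSingle (fun i => H i) i x) i = x
  simp

theorem countable_sumG {I : Type} [Countable I] (H : I → GrpCat.{0}) [∀ i, Countable (H i)] :
    Countable (GrpCat.of (sumG H)) := by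
  classical
  let S : Set (∀ i, H i) := ⋃ i, Set.range (MonoidHom.mulSingle (fun i => H i) i)
  have hS : S.Countable := Set.countable_iUnion fun i => Set.countable_range _
  have : Countable S := hS.to_subtype
  have h1 : Countable (FreeGroup S) := by
    unfold FreeGroup
    infer_instance
  have h2 : sumG H = (FreeGroup.lift (fun s : S => (s : ∀ i, H i))).range := by
    rw [FreeGroup.range_lift_eq_closure, Subtype.range_coe]
    unfold sumG
    congr!
  have h3 : Countable (sumG H) := by
    rw [h2]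
    exact (Set.countable_range _).to_subtype
  exact h3

end Pool.Agent.L0h7.SG
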