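import Pool.Agent.L0h7.SG.One
import Pool.Agent.L0h84.KF.REP2
import Pool.Agent.L0h95.KF.PAT2
import Pool.Agent.L0h26.KF.NATR
import Pool.Agent.L0h7.KF.MAIN2
import Mathlib.SetTheory.Cardinal.Subfield
import Mathlib.Algebra.FreeAlgebra.Cardinality

/-! # Negative `K`-groups of torsion-free groups: reduction to one group -/

set_option autoImplicit false

open CategoryTheory

noncomputable section

namespace Pool.Agent.L0h7.SG

open Pool.Agent.Y75.NK Pool.Agent.L0h7.KN Pool.Agent.L0h7.KF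

/-- vanishing is decided by the values of formal matrices for surjective maps -/
theorem van_of_surj (R : Type) [Ring R] (m : ℕ)
    (h : ∀ (n d : ℕ) (M : Matrix (Fin d) (Fin d) (MonoidAlgebra R ((EF m).obj (fm n))))
      (G : GrpCat.{0}) (f : fm n ⟶ G), Function.Surjective f.hom → TFr G →
        ev R m M f * ev R m M f = ev R m M f → Triv R m M f)
    (G : GrpCat.{0}) (hG : TFr G) : Van R m G := by
  intro x
  have key : ∀ e : Idem (MonoidAlgebra R ((EF m).obj G)), kclass R m G e = 0 := by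
    intro e
    obtain ⟨n, M, f, hf⟩ := Pool.Agent.L0h6.KN.t_REP R m G e
    obtain ⟨E, hE⟩ := Pool.Agent.L0h91.KN.PAT.t_PAT R m n e.n M
    have h1 : ev R m M f * ev R m M f = ev R m M f := by
      rw [hf]
      exact e.idem
    let f' : fm n ⟶ GrpCat.of f.hom.range := GrpCat.ofHom f.hom.rangeRestrict
    let i : GrpCat.of f.hom.range ⟶ G := GrpCat.ofHom f.hom.range.subtype
    have hfi : f' ≫ i = f := by
      apply GrpCat.hom_ext
      apply MonoidHom.ext
      intro x
      rfl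
    have hp : ∀ w ∈ E, f.hom w = 1 ↔ f'.hom w = 1 := by
      intro w _
      constructor
      · intro hw
        exact Subtype.ext hw
      · intro hw
        exact congrArg Subtype.val hw
    have h2 := hE G (GrpCat.of f.hom.range) f f' hp h1
    have htf : TFr (GrpCat.of f.hom.range) := by
      rintro ⟨g, hg⟩ k hk hgk
      exact Subtype.ext (hG g k hk (congrArg Subtype.val hgk))
    have h3 := h n e.n M (GrpCat.of f.hom.range) f' f.hom.rangeRestrict_surjective htf h2
    have h4 := Pool.Agent.L0h6.KN.t_MNO R m n e.n M _ _ f' i h3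
    rw [hfi] at h4
    obtain ⟨h5, h6⟩ := h4
    rwa [idem_eq e _ h5 hf] at h6
  obtain ⟨e, e', he⟩ := kclass_generate R m G x
  rw [he, key e, key e', sub_zero]

theorem van_iso (R : Type) [Ring R] (m : ℕ) {n : ℕ} {G H : GrpCat.{0}} (f : fm n ⟶ G)
    (g : fm n ⟶ H) (hf : Function.Surjective f.hom) (hg : Function.Surjective g.hom)
    (h : ∀ w, f.hom w = 1 ↔ g.hom w = 1) (hV : Van R m G) : Van R m H := by
  have h1 : f.hom.ker ≤ g.hom.ker := fun w hw => (h w).1 hw
  have h2 : g.hom.ker ≤ f.hom.ker := fun w hw => (h w).2 hw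
  let r : G →* H := f.hom.liftOfSurjective hf ⟨g.hom, h1⟩
  let i : H →* G := g.hom.liftOfSurjective hg ⟨f.hom, h2⟩
  have hr : ∀ w, r (f.hom w) = g.hom w := fun w =>
    MonoidHom.liftOfRightInverse_comp_apply f.hom _ _ ⟨g.hom, h1⟩ w
  have hi : ∀ w, i (g.hom w) = f.hom w := fun w =>
    MonoidHom.liftOfRightInverse_comp_apply g.hom _ _ ⟨f.hom, h2⟩ w
  refine van_retract R m (GrpCat.ofHom i) (GrpCat.ofHom r) ?_ hV
  apply GrpCat.hom_ext
  apply MonoidHom.ext
  intro x
  obtain ⟨w, rfl⟩ := hg x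
  change r (i (g.hom w)) = g.hom w
  rw [hi, hr]

/-- one torsion-free group for all rings -/
theorem one_group : ∃ U : GrpCat.{0}, TFr U ∧ ∀ (R : Type) [Ring R],
    (∀ (m : ℕ), 1 ≤ m → ∀ G : GrpCat.{0}, TFr G → Van R m G) ↔ Van R 1 U := by
  let I : Type := {i : Σ n : ℕ, Set (FreeGroup (Fin n)) // TFr (PG i.1 i.2)}
  let H : I → GrpCat.{0} := fun i => PG i.1.1 i.1.2
  have hU : TFr (GrpCat.of (sumG H)) := tfr_sumG H fun i => i.2
  refine ⟨GrpCat.of (sumG H), hU, fun R _ => ⟨fun h => h 1 le_rfl _ hU, fun h => ?_⟩⟩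
  intro m hm
  obtain ⟨m, rfl⟩ : ∃ k, m = k + 1 := ⟨m - 1, by omega⟩
  refine van_all R (fun G hG => van_of_surj R 1 ?_ G hG) m
  intro n d M G f hf hG hid
  have h1 : ∀ w, (toPG n {w | f.hom w = 1}).hom w = 1 ↔ f.hom w = 1 := by
    intro w
    have h2 : Subgroup.normalClosure {w | f.hom w = 1} = f.hom.ker :=
      le_antisymm (Subgroup.normalClosure_le_normal fun w hw => hw)
        (fun w hw => Subgroup.subset_normalClosure hw)
    refine (QuotientGroup.eq_one_iff (N := Subgroup.normalClosure _) w).trans ?_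
    rw [h2]
    rfl
  have h3 : Function.Surjective (toPG n {w | f.hom w = 1}).hom := QuotientGroup.mk'_surjective _
  have h4 : TFr (PG n {w | f.hom w = 1}) := by
    intro g k hk hgk
    obtain ⟨w, rfl⟩ := h3 g
    rw [← map_pow, h1, map_pow] at hgk
    exact (h1 w).2 (hG _ k hk hgk)
  have h5 : Van R 1 (PG n {w | f.hom w = 1}) :=
    van_sumG R 1 H h ⟨⟨n, {w | f.hom w = 1}⟩, h4⟩
  exact ⟨hid, van_iso R 1 _ f h3 hf h1 h5 _⟩

instance countable_ma (A E : Type) [Semiring A] [Countable A] [Countable E] :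
    Countable (MonoidAlgebra A E) :=
  (MonoidAlgebra.coeff_injective (R := A) (M := E)).countable

instance countable_ef (n : ℕ) : Countable ((EF 1).obj (fm n)) := by
  have h : Countable (FreeGroup (Fin n)) := by
    unfold FreeGroup
    infer_instance
  exact inferInstanceAs (Countable (Multiplicative ℤ × FreeGroup (Fin n)))

instance countable_fa (r : ℕ) : Countable (FreeAlgebra ℤ (Fin r)) := by
  rw [← Cardinal.mk_le_aleph0_iff]
  refine (FreeAlgebra.cardinalMk_le_max (R := ℤ) (X := Fin r)).trans ?_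
  simp

/-- every formal matrix over `R` comes from the free ring -/
theorem lift_fa (R : Type) [Ring R] {E : Type} [Group E] {d : ℕ}
    (M : Matrix (Fin d) (Fin d) (MonoidAlgebra R E)) :
    ∃ (r : ℕ) (θ : FreeAlgebra ℤ (Fin r) →+* R)
      (M₀ : Matrix (Fin d) (Fin d) (MonoidAlgebra (FreeAlgebra ℤ (Fin r)) E)),
      M₀.map (MonoidAlgebra.mapRingHom E θ) = M := by
  classical
  choose T hT using fun i j => Pool.Agent.L0h84.KF.rep_coef (M i j)
  obtain ⟨U, hU⟩ : ∃ U : Finset R, U = Finset.univ.biUnion fun i => Finset.univ.biUnion (T i) :=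
    ⟨_, rfl⟩
  let θ : FreeAlgebra ℤ (Fin U.card) →+* R :=
    (FreeAlgebra.lift ℤ (fun i => ((U.equivFin.symm i : U) : R))).toRingHom
  have hθ : ∀ t ∈ U, t ∈ θ.range := by
    intro t ht
    refine ⟨FreeAlgebra.ι ℤ (U.equivFin ⟨t, ht⟩), ?_⟩
    change FreeAlgebra.lift ℤ (fun i => ((U.equivFin.symm i : U) : R))
      (FreeAlgebra.ι ℤ (U.equivFin ⟨t, ht⟩)) = t
    rw [FreeAlgebra.lift_ι_apply, Equiv.symm_apply_apply]
  have h1 : ∀ i j, ∃ b, MonoidAlgebra.mapRingHom E θ b = M i j := by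
    intro i j
    refine hT i j _ θ fun t ht => hθ t ?_
    rw [hU, Finset.mem_biUnion]
    refine ⟨i, Finset.mem_univ i, ?_⟩
    rw [Finset.mem_biUnion]
    exact ⟨j, Finset.mem_univ j, ht⟩
  choose M₀ hM₀ using h1
  refine ⟨U.card, θ, Matrix.of M₀, ?_⟩
  ext1 i j
  exact hM₀ i j

theorem countable_of_surj {n : ℕ} {G : GrpCat.{0}} (f : fm n ⟶ G)
    (hf : Function.Surjective f.hom) : Countable G := by
  have h : Countable (FreeGroup (Fin n)) := by
    unfold FreeGroup
    infer_instance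
  exact hf.countable

/-- one countable torsion-free group for each class of rings -/
theorem class_group (C : ∀ (R : Type) [Ring R], Prop) : ∃ U : GrpCat.{0}, Countable U ∧ TFr U ∧
    ((∀ (R : Type) [Ring R], C R → ∀ (m : ℕ), 1 ≤ m → ∀ G : GrpCat.{0}, TFr G → Van R m G) ↔
      ∀ (R : Type) [Ring R], C R → Van R 1 U) := by
  let J : Type := Σ r : ℕ, Σ n : ℕ, Σ d : ℕ,
    Matrix (Fin d) (Fin d) (MonoidAlgebra (FreeAlgebra ℤ (Fin r)) ((EF 1).obj (fm n)))
  have hJ : Countable J := by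
    have h1 : ∀ r n d : ℕ, Countable
        (Matrix (Fin d) (Fin d) (MonoidAlgebra (FreeAlgebra ℤ (Fin r)) ((EF 1).obj (fm n)))) := by
      intro r n d
      unfold Matrix
      infer_instance
    infer_instance
  have key : ∀ j : J, ∃ H : GrpCat.{0}, Countable H ∧ TFr H ∧
      ((∃ (R : Type) (_ : Ring R) (_ : C R) (θ : FreeAlgebra ℤ (Fin j.1) →+* R) (G : GrpCat.{0})
        (f : fm j.2.1 ⟶ G), Function.Surjective f.hom ∧ TFr G ∧
          ev R 1 (j.2.2.2.map (MonoidAlgebra.mapRingHom _ θ)) f *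
            ev R 1 (j.2.2.2.map (MonoidAlgebra.mapRingHom _ θ)) f =
            ev R 1 (j.2.2.2.map (MonoidAlgebra.mapRingHom _ θ)) f ∧
          ¬ Triv R 1 (j.2.2.2.map (MonoidAlgebra.mapRingHom _ θ)) f) →
        ∃ (R : Type) (_ : Ring R) (_ : C R), ¬ Van R 1 H) := by
    intro j
    by_cases hj : (∃ (R : Type) (_ : Ring R) (_ : C R) (θ : FreeAlgebra ℤ (Fin j.1) →+* R)
        (G : GrpCat.{0}) (f : fm j.2.1 ⟶ G), Function.Surjective f.hom ∧ TFr G ∧
          ev R 1 (j.2.2.2.map (MonoidAlgebra.mapRingHom _ θ)) f *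
            ev R 1 (j.2.2.2.map (MonoidAlgebra.mapRingHom _ θ)) f =
            ev R 1 (j.2.2.2.map (MonoidAlgebra.mapRingHom _ θ)) f ∧
          ¬ Triv R 1 (j.2.2.2.map (MonoidAlgebra.mapRingHom _ θ)) f)
    · obtain ⟨R, _, hR, θ, G, f, hf, hG, hid, hT⟩ := hj
      exact ⟨G, countable_of_surj f hf, hG, fun _ => ⟨R, inferInstance, hR,
        fun hV => hT ⟨hid, hV _⟩⟩⟩
    · refine ⟨GrpCat.of Unit, inferInstanceAs (Countable Unit), fun g k _ _ => rfl,
        fun h => absurd h hj⟩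
  choose H hc ht hw using key
  have hU : TFr (GrpCat.of (sumG H)) := tfr_sumG H ht
  refine ⟨GrpCat.of (sumG H), countable_sumG H, hU,
    fun h R _ hR => h R hR 1 le_rfl _ hU, fun h R _ hR => ?_⟩
  intro m hm
  obtain ⟨m, rfl⟩ : ∃ k, m = k + 1 := ⟨m - 1, by omega⟩
  refine van_all R (fun G hG => van_of_surj R 1 ?_ G hG) m
  intro n d M G f hf hG hid
  by_contra hT
  obtain ⟨r, θ, M₀, rfl⟩ := lift_fa R M
  obtain ⟨R', _, hR', hV⟩ := hw ⟨r, n, d, M₀⟩ ⟨R, inferInstance, hR, θ, G, f, hf, hG, hid, hT⟩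
  exact hV (van_sumG R' 1 H (h R' hR') _)

/-- every formal matrix over a commutative ring comes from a ring of integral polynomials -/
theorem lift_mv (R : Type) [CommRing R] {E : Type} [Group E] {d : ℕ}
    (M : Matrix (Fin d) (Fin d) (MonoidAlgebra R E)) :
    ∃ (r : ℕ) (θ : Zp r →+* R) (M₀ : Matrix (Fin d) (Fin d) (MonoidAlgebra (Zp r) E)),
      M₀.map (MonoidAlgebra.mapRingHom E θ) = M := by
  classical
  choose T hT using fun i j => Pool.Agent.L0h84.KF.rep_coef (M i j)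
  obtain ⟨U, hU⟩ : ∃ U : Finset R, U = Finset.univ.biUnion fun i => Finset.univ.biUnion (T i) :=
    ⟨_, rfl⟩
  let θ : Zp U.card →+* R :=
    MvPolynomial.eval₂Hom (Int.castRingHom R) (fun i => ((U.equivFin.symm i : U) : R))
  have hθ : ∀ t ∈ U, t ∈ θ.range := by
    intro t ht
    refine ⟨MvPolynomial.X (U.equivFin ⟨t, ht⟩), ?_⟩
    show MvPolynomial.eval₂Hom (Int.castRingHom R) (fun i => ((U.equivFin.symm i : U) : R))
      (MvPolynomial.X (U.equivFin ⟨t, ht⟩)) = t
    rw [MvPolynomial.eval₂Hom_X', Equiv.symm_apply_apply]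
  have h1 : ∀ i j, ∃ b, MonoidAlgebra.mapRingHom E θ b = M i j := by
    intro i j
    refine hT i j _ θ fun t ht => hθ t ?_
    rw [hU, Finset.mem_biUnion]
    refine ⟨i, Finset.mem_univ i, ?_⟩
    rw [Finset.mem_biUnion]
    exact ⟨j, Finset.mem_univ j, ht⟩
  choose M₀ hM₀ using h1
  refine ⟨U.card, θ, Matrix.of M₀, ?_⟩
  ext1 i j
  exact hM₀ i j

/-- one countable torsion-free group and the countable fields -/
theorem field_group : ∃ U : GrpCat.{0}, Countable U ∧ TFr U ∧
    ((∀ (k : Type) [Field k] (m : ℕ), 1 ≤ m → ∀ G : GrpCat.{0}, TFr G → Van k m G) ↔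
      ∀ (k : Type) [Field k], Countable k → Van k 1 U) := by
  let J : Type := Σ r : ℕ, Σ n : ℕ, Σ d : ℕ, FMat r 1 n d
  have hJ : Countable J := by
    have h0 : ∀ r : ℕ, Countable (Zp r) := by
      intro r
      rw [← Cardinal.mk_le_aleph0_iff]
      refine (MvPolynomial.cardinalMk_le_max (R := ℤ) (σ := Fin r)).trans ?_
      simp
    have h1 : ∀ r n d : ℕ, Countable (FMat r 1 n d) := by
      intro r n d
      have h2 := h0 r
      unfold FMat Matrix
      infer_instance
    infer_instance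
  have key : ∀ j : J, ∃ H : GrpCat.{0}, Countable H ∧ TFr H ∧
      ((∃ (k : Type) (_ : Field k) (θ : Zp j.1 →+* k) (G : GrpCat.{0})
        (f : fm j.2.1 ⟶ G), Function.Surjective f.hom ∧ TFr G ∧
          ev2 j.2.2.2 θ f * ev2 j.2.2.2 θ f = ev2 j.2.2.2 θ f ∧ ¬ Triv2 j.2.2.2 θ f) →
        ∃ (k : Type) (_ : Field k), Countable k ∧ ¬ Van k 1 H) := by
    intro j
    by_cases hj : (∃ (k : Type) (_ : Field k) (θ : Zp j.1 →+* k) (G : GrpCat.{0})
        (f : fm j.2.1 ⟶ G), Function.Surjective f.hom ∧ TFr G ∧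
          ev2 j.2.2.2 θ f * ev2 j.2.2.2 θ f = ev2 j.2.2.2 θ f ∧ ¬ Triv2 j.2.2.2 θ f)
    · obtain ⟨k, _, θ, G, f, hf, hG, hid, hT⟩ := hj
      refine ⟨G, countable_of_surj f hf, hG, fun _ => ?_⟩
      let K : Subfield k := Subfield.closure (Set.range θ)
      have hK : Countable K := by
        rw [← Cardinal.mk_le_aleph0_iff]
        refine (Subfield.cardinalMk_closure_le_max (Set.range θ)).trans ?_
        refine max_le ?_ le_rfl
        rw [Cardinal.mk_le_aleph0_iff]
        have h0 : Countable (Zp j.1) := by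
          rw [← Cardinal.mk_le_aleph0_iff]
          refine (MvPolynomial.cardinalMk_le_max (R := ℤ) (σ := Fin j.1)).trans ?_
          simp
        exact (Set.countable_range θ).to_subtype
      let θ' : Zp j.1 →+* K := θ.codRestrict K fun x => Subfield.subset_closure ⟨x, rfl⟩
      have h1 : K.subtype.comp θ' = θ := RingHom.ext fun x => rfl
      obtain ⟨E, E', hE⟩ := Pool.Agent.L0h95.KF.t_PAT2 j.1 1 j.2.1 j.2.2.1 j.2.2.2
      have h2 := hE k K θ θ' G G f f (fun w _ => Iff.rfl) (fun p _ => by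
        constructor
        · intro hp
          exact Subtype.ext hp
        · intro hp
          exact congrArg Subtype.val hp) hid
      refine ⟨K, inferInstance, hK, fun hV => hT ?_⟩
      have h3 : Triv2 j.2.2.2 θ' f := ⟨h2, hV _⟩
      have h4 := Pool.Agent.L0h26.KF.t_NAT2 Pool.Agent.L0h26.KF.t_NATR j.1 1 j.2.1 j.2.2.1 j.2.2.2
        K k θ' K.subtype G G f (𝟙 G) h3
      rwa [h1, Category.comp_id] at h4
    · refine ⟨GrpCat.of Unit, inferInstanceAs (Countable Unit), fun g k _ _ => rfl,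
        fun h => absurd h hj⟩
  choose H hc ht hw using key
  have hU : TFr (GrpCat.of (sumG H)) := tfr_sumG H ht
  refine ⟨GrpCat.of (sumG H), countable_sumG H, hU,
    fun h k _ _ => h k 1 le_rfl _ hU, fun h k _ => ?_⟩
  intro m hm
  obtain ⟨m, rfl⟩ : ∃ q, m = q + 1 := ⟨m - 1, by omega⟩
  refine van_all k (fun G hG => van_of_surj k 1 ?_ G hG) m
  intro n d M G f hf hG hid
  by_contra hT
  obtain ⟨r, θ, M₀, rfl⟩ := lift_mv k M
  rw [ev_map] at hid
  rw [triv_map] at hT
  obtain ⟨k', _, hk', hV⟩ := hw ⟨r, n, d, M₀⟩ ⟨k, inferInstance, θ, G, f, hf, hG, hid, hT⟩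
  exact hV (van_sumG k' 1 H (h k' hk') _)

end Pool.Agent.L0h7.SG
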